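import Pool.Agent.MP_95b452_co.Defs
import Pool.Agent.MP_95b452_co.Mg.Lower

/-!
The smallest `k` with `c(G) = O(k ^ n)` over all rigid graphs on `n` vertices is `3`.
-/

namespace Pool.Agent.Results.MP_95b452_co.GrowthThree

open Pool.Agent.MP_95b452_co

theorem result : IsLeast {k : ℝ | ∃ (C : ℝ) (n₀ : ℕ), ∀ n ≥ n₀, ∀ G : SimpleGraph (Fin n),
    Rigid G → ∀ p : Fin n → Fin 2 → ℂ, Generic p →
      (classes G p).Finite ∧ ((classes G p).ncard : ℝ) ≤ C * k ^ n} 3 := by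
  refine ⟨⟨8, 2, fun n hn G hG p hp => ?_⟩, ?_⟩
  · obtain ⟨n, rfl⟩ := Nat.exists_eq_add_of_le' hn
    obtain ⟨h1, h2⟩ := upper (n := n) (by simp) hG hp
    refine ⟨h1, ?_⟩
    have h3 : (classes G p).ncard ≤ 8 * 3 ^ (n + 2) :=
      h2.trans (Nat.mul_le_mul_left 8 (Nat.pow_le_pow_right (by norm_num) (by omega)))
    exact_mod_cast h3
  · rintro k ⟨C, n₀, h⟩
    by_contra hk
    rw [not_le] at hk
    rcases le_or_gt 0 k with hk0 | hk0
    · obtain ⟨n, hn, G, hG, h1⟩ := lower hk0 hk C n₀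
      obtain ⟨p, hp⟩ := exists_generic (Fin n) ℂ
      obtain ⟨h2, h3⟩ := h n hn G hG p hp
      exact (h1 p hp h2).not_ge h3
    · have h1 : ∀ n ≥ n₀, 0 < C * k ^ n := by
        intro n hn
        obtain ⟨p, hp⟩ := exists_generic (Fin n) ℂ
        obtain ⟨h2, h3⟩ := h n hn ⊤ (fun q _ => Filter.Eventually.of_forall fun r hr u v => by
          by_cases huv : u = v
          · simp [huv]
          · exact hr u v huv) p hp
        refine lt_of_lt_of_le ?_ h3
        exact_mod_cast (Set.ncard_pos h2).2 ⟨_, p, fun _ _ _ => rfl, rfl⟩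
      have h2 := h1 n₀ le_rfl
      have h3 := h1 (n₀ + 1) (Nat.le_succ _)
      rw [pow_succ, ← mul_assoc] at h3
      nlinarith

end Pool.Agent.Results.MP_95b452_co.GrowthThree
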